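import Pool.Agent.H174.GP.StE
import Pool.Agent.H174.GP.StA

open MeasureTheory ProbabilityTheory Finset Filter Topology

namespace Pool.Agent.H279.GP174

open Pool.Agent.H174.GP

theorem fin_cnt (d m : ℕ) : {gh : (Fin d → ℕ) × (Fin d → ℕ) |
    d ^ 2 + ∑ i : Fin d, ((i : ℕ) + 1) * (gh.1 i + gh.2 i) = m}.Finite := by
  refine Set.Finite.subset ((Set.finite_Iic (fun _ : Fin d => m)).prod
    (Set.finite_Iic (fun _ : Fin d => m))) ?_
  rintro ⟨g, h⟩ hgh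
  have hgh' : d ^ 2 + ∑ i : Fin d, ((i : ℕ) + 1) * (g i + h i) = m := hgh
  have hb : ∀ i : Fin d, g i + h i ≤ m := by
    intro i
    have h1 : ((i : ℕ) + 1) * (g i + h i) ≤ ∑ i : Fin d, ((i : ℕ) + 1) * (g i + h i) :=
      Finset.single_le_sum (f := fun i : Fin d => ((i : ℕ) + 1) * (g i + h i))
        (fun _ _ => Nat.zero_le _) (Finset.mem_univ i)
    have h2 : g i + h i ≤ ((i : ℕ) + 1) * (g i + h i) := Nat.le_mul_of_pos_left _ (Nat.succ_pos _)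
    omega
  exact ⟨fun i => le_trans (Nat.le_add_right _ _) (hb i),
    fun i => le_trans (Nat.le_add_left _ _) (hb i)⟩

theorem cntD_le (d d' n : ℕ) : cntD d d' n ≤ cnt d n * cnt d' n := by
  unfold cntD cnt
  rw [← Set.ncard_prod]
  refine Set.ncard_le_ncard ?_ ((fin_cnt d n).prod (fin_cnt d' n))
  rintro ⟨a, b⟩ ⟨h1, h2, _⟩
  exact ⟨h1, h2⟩

theorem upper_abs (M : ℕ) (c : ℕ → ℝ) (D : ℕ → ℕ → ℝ) (T : Finset ℕ) (x δ : ℝ)
    (hc : ∀ d, 0 ≤ c d) (hD : ∀ d d', D d d' ≤ c d * c d') (hT : T ⊆ Finset.range M)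
    (hx : 0 ≤ x) (hx2 : ∀ d ∈ T, ∀ d' ∈ T, D d d' ≤ x * c d * c d')
    (hδ : ∑ d ∈ Finset.range M \ T, c d ≤ δ * ∑ d ∈ Finset.range M, c d) :
    ∑ d ∈ Finset.range M, ∑ d' ∈ Finset.range M, D d d'
      ≤ (x + 2 * δ) * (∑ d ∈ Finset.range M, c d) ^ 2 := by
  have hP : 0 ≤ ∑ d ∈ Finset.range M, c d := Finset.sum_nonneg (fun d _ => hc d)
  have h1 : ∀ d ∈ Finset.range M, ∀ d' ∈ Finset.range M, D d d' ≤
      x * (c d * c d') + ((if d ∈ T then 0 else c d) * c d' + c d * (if d' ∈ T then 0 else c d')) := by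
    intro d _ d' _
    have hcc : 0 ≤ c d * c d' := mul_nonneg (hc d) (hc d')
    by_cases h : d ∈ T
    · by_cases h' : d' ∈ T
      · have := hx2 d h d' h'
        simp only [h, h', if_true]
        nlinarith
      · have := hD d d'
        simp only [h, h', if_true, if_false]
        nlinarith [mul_nonneg hx hcc]
    · by_cases h' : d' ∈ T
      · have := hD d d'
        simp only [h, h', if_true, if_false]
        nlinarith [mul_nonneg hx hcc]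
      · have := hD d d'
        simp only [h, h', if_false]
        nlinarith [mul_nonneg hx hcc]
  have h2 : ∑ d ∈ Finset.range M, (if d ∈ T then 0 else c d) = ∑ d ∈ Finset.range M \ T, c d := by
    rw [← Finset.sum_sdiff hT]
    rw [Finset.sum_eq_zero (s := T) (fun d hd => by simp [hd]), add_zero]
    refine Finset.sum_congr rfl (fun d hd => ?_)
    rw [if_neg (Finset.mem_sdiff.1 hd).2]
  calc ∑ d ∈ Finset.range M, ∑ d' ∈ Finset.range M, D d d'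
      ≤ ∑ d ∈ Finset.range M, ∑ d' ∈ Finset.range M, (x * (c d * c d') +
          ((if d ∈ T then 0 else c d) * c d' + c d * (if d' ∈ T then 0 else c d'))) :=
        Finset.sum_le_sum (fun d hd => Finset.sum_le_sum (fun d' hd' => h1 d hd d' hd'))
    _ = x * (∑ d ∈ Finset.range M, c d) ^ 2 +
          ((∑ d ∈ Finset.range M \ T, c d) * (∑ d ∈ Finset.range M, c d) +
          (∑ d ∈ Finset.range M, c d) * (∑ d ∈ Finset.range M \ T, c d)) := by
        rw [← h2, sq, Finset.sum_mul_sum, Finset.sum_mul_sum, Finset.sum_mul_sum, Finset.mul_sum]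
        rw [← Finset.sum_add_distrib, ← Finset.sum_add_distrib]
        refine Finset.sum_congr rfl (fun d _ => ?_)
        rw [Finset.mul_sum, ← Finset.sum_add_distrib, ← Finset.sum_add_distrib]
    _ ≤ (x + 2 * δ) * (∑ d ∈ Finset.range M, c d) ^ 2 := by
        nlinarith [mul_le_mul_of_nonneg_right hδ hP]

theorem half_pairs (Q : Finset ℕ) (c : ℕ → ℝ) (hc : ∀ d, 0 ≤ c d) :
    (∑ d ∈ Q, c d) ^ 2 ≤ 2 * ∑ d ∈ Q, ∑ d' ∈ Q, (if d ≤ d' then c d * c d' else 0) := by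
  have h1 : ∑ d ∈ Q, ∑ d' ∈ Q, (if d' ≤ d then c d * c d' else 0)
      = ∑ d ∈ Q, ∑ d' ∈ Q, (if d ≤ d' then c d * c d' else 0) := by
    rw [Finset.sum_comm]
    refine Finset.sum_congr rfl (fun d _ => Finset.sum_congr rfl (fun d' _ => ?_))
    rw [mul_comm (c d') (c d)]
  have h2 : (∑ d ∈ Q, c d) ^ 2 ≤ ∑ d ∈ Q, ∑ d' ∈ Q, (if d ≤ d' then c d * c d' else 0) +
      ∑ d ∈ Q, ∑ d' ∈ Q, (if d' ≤ d then c d * c d' else 0) := by
    rw [sq, Finset.sum_mul_sum, ← Finset.sum_add_distrib]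
    refine Finset.sum_le_sum (fun d _ => ?_)
    rw [← Finset.sum_add_distrib]
    refine Finset.sum_le_sum (fun d' _ => ?_)
    have hcc : 0 ≤ c d * c d' := mul_nonneg (hc d) (hc d')
    rcases le_total d d' with h | h
    · rw [if_pos h]
      split_ifs <;> linarith
    · rw [if_pos h]
      split_ifs <;> linarith
  linarith

/-- Abstract lower bound: `Q ⊆ range M` a piece with mass `≥ P / (2K)`. -/
theorem lower_abs (M : ℕ) (c : ℕ → ℝ) (D : ℕ → ℕ → ℝ) (Q : Finset ℕ) (y m : ℝ)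
    (hc : ∀ d, 0 ≤ c d) (hD : ∀ d d', 0 ≤ D d d') (hQ : Q ⊆ Finset.range M)
    (hy : 0 ≤ y) (hy2 : ∀ d ∈ Q, ∀ d' ∈ Q, d ≤ d' → y * c d * c d' ≤ D d d')
    (hm0 : 0 ≤ m) (hm : m ≤ ∑ d ∈ Q, c d) :
    y / 2 * m ^ 2 ≤ ∑ d ∈ Finset.range M, ∑ d' ∈ Finset.range M, D d d' := by
  have h1 := half_pairs Q c hc
  have h2 : y * ∑ d ∈ Q, ∑ d' ∈ Q, (if d ≤ d' then c d * c d' else 0) ≤ ∑ d ∈ Q, ∑ d' ∈ Q, D d d' := by
    rw [Finset.mul_sum]
    refine Finset.sum_le_sum (fun d hd => ?_)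
    rw [Finset.mul_sum]
    refine Finset.sum_le_sum (fun d' hd' => ?_)
    by_cases h : d ≤ d'
    · rw [if_pos h]
      have := hy2 d hd d' hd' h
      linarith
    · rw [if_neg h, mul_zero]
      exact hD d d'
  have h3 : ∑ d ∈ Q, ∑ d' ∈ Q, D d d' ≤ ∑ d ∈ Finset.range M, ∑ d' ∈ Finset.range M, D d d' := by
    calc ∑ d ∈ Q, ∑ d' ∈ Q, D d d' ≤ ∑ d ∈ Q, ∑ d' ∈ Finset.range M, D d d' :=
          Finset.sum_le_sum (fun d _ => Finset.sum_le_sum_of_subset_of_nonneg hQ (fun _ _ _ => hD _ _))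
      _ ≤ _ := Finset.sum_le_sum_of_subset_of_nonneg hQ
          (fun _ _ _ => Finset.sum_nonneg (fun _ _ => hD _ _))
  have h4 : m ^ 2 ≤ (∑ d ∈ Q, c d) ^ 2 := pow_le_pow_left₀ hm0 hm 2
  nlinarith

theorem ev_exp (κ θ : ℝ) (hκ : 0 < κ) : ∀ᶠ n : ℕ in atTop, Real.exp (-(κ * Real.sqrt n)) ≤ (n : ℝ) ^ (-(θ + 1)) := by
  have h1 : Tendsto (fun x : ℝ => x ^ (2 * (θ + 1)) * Real.exp (-κ * x)) atTop (𝓝 0) :=
    tendsto_rpow_mul_exp_neg_mul_atTop_nhds_zero _ _ hκ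
  have h2 : Tendsto (fun n : ℕ => Real.sqrt n) atTop atTop :=
    Real.tendsto_sqrt_atTop.comp tendsto_natCast_atTop_atTop
  have h3 := h1.comp h2
  have h4 : ∀ᶠ n : ℕ in atTop, ((fun x : ℝ => x ^ (2 * (θ + 1)) * Real.exp (-κ * x)) ∘ fun n : ℕ => Real.sqrt n) n < 1 :=
    (tendsto_order.1 h3).2 1 one_pos
  filter_upwards [h4, eventually_ge_atTop 1] with n hn hn1
  simp only [Function.comp] at hn
  have hn0 : (0 : ℝ) < n := by exact_mod_cast hn1
  have e1 : Real.sqrt n ^ (2 * (θ + 1)) = (n : ℝ) ^ (θ + 1) := by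
    rw [Real.sqrt_eq_rpow, ← Real.rpow_mul hn0.le]
    congr 1; ring
  rw [e1] at hn
  have hp : 0 < (n : ℝ) ^ (θ + 1) := Real.rpow_pos_of_pos hn0 _
  rw [Real.rpow_neg hn0.le, show -(κ * Real.sqrt n) = -κ * Real.sqrt n by ring]
  rw [← one_div, le_div_iff₀ hp]
  linarith

theorem ev_const (B ε : ℝ) (hε : 0 < ε) : ∀ᶠ n : ℕ in atTop, B ≤ (n : ℝ) ^ ε :=
  ((tendsto_rpow_atTop hε).comp tendsto_natCast_atTop_atTop).eventually_ge_atTop B

theorem ev_log (a b ε : ℝ) (ha : 0 < a) (hε : 0 < ε) : ∀ᶠ n : ℕ in atTop, a * Real.log n + b ≤ (n : ℝ) ^ ε := by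
  have h1 : ∀ᶠ x : ℝ in atTop, ‖Real.log x‖ ≤ (1 / (2 * a)) * ‖x ^ ε‖ :=
    (isLittleO_log_rpow_atTop hε).bound (by positivity)
  have h2 : ∀ᶠ n : ℕ in atTop, ‖Real.log (n : ℝ)‖ ≤ (1 / (2 * a)) * ‖(n : ℝ) ^ ε‖ :=
    tendsto_natCast_atTop_atTop.eventually h1
  filter_upwards [h2, ev_const (2 * b) ε hε] with n h3 h4
  have h5 : ‖(n : ℝ) ^ ε‖ = (n : ℝ) ^ ε := by
    rw [Real.norm_eq_abs, abs_of_nonneg (Real.rpow_nonneg (Nat.cast_nonneg n) _)]
  rw [h5] at h3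
  have h6 : Real.log n ≤ (1 / (2 * a)) * (n : ℝ) ^ ε := le_trans (le_trans (le_abs_self _) (by rw [Real.norm_eq_abs] at h3; exact h3)) le_rfl
  have h7 : a * Real.log n ≤ a * ((1 / (2 * a)) * (n : ℝ) ^ ε) := mul_le_mul_of_nonneg_left h6 ha.le
  have h8 : a * ((1 / (2 * a)) * (n : ℝ) ^ ε) = (n : ℝ) ^ ε / 2 := by
    field_simp
  linarith

/-- Typical set and its complement. -/
theorem typ_mass (c : ℕ → ℝ) (hc : ∀ d, 0 ≤ c d) (M : ℕ) (A B : ℕ → Prop) [DecidablePred A] [DecidablePred B]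
    (a b P : ℝ)
    (hA : ∑ d ∈ (Finset.range M).filter (fun d => ¬ A d), c d ≤ a * P)
    (hB : ∑ d ∈ (Finset.range M).filter (fun d => B d), c d ≤ b * P) :
    ∑ d ∈ Finset.range M \ (Finset.range M).filter (fun d => A d ∧ ¬ B d), c d ≤ (a + b) * P := by
  have h1 : Finset.range M \ (Finset.range M).filter (fun d => A d ∧ ¬ B d) ⊆
      (Finset.range M).filter (fun d => ¬ A d) ∪ (Finset.range M).filter (fun d => B d) := by
    intro d hd
    simp only [Finset.mem_sdiff, Finset.mem_filter, Finset.mem_union] at hd ⊢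
    tauto
  have h2 : ∑ d ∈ Finset.range M \ (Finset.range M).filter (fun d => A d ∧ ¬ B d), c d ≤
      ∑ d ∈ (Finset.range M).filter (fun d => ¬ A d) ∪ (Finset.range M).filter (fun d => B d), c d :=
    Finset.sum_le_sum_of_subset_of_nonneg h1 (fun _ _ _ => hc _)
  have h3 := Finset.sum_union_inter (s₁ := (Finset.range M).filter (fun d => ¬ A d))
    (s₂ := (Finset.range M).filter (fun d => B d)) (f := c)
  have h4 : 0 ≤ ∑ d ∈ (Finset.range M).filter (fun d => ¬ A d) ∩ (Finset.range M).filter (fun d => B d), c d :=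
    Finset.sum_nonneg (fun _ _ => hc _)
  nlinarith

theorem gp_key (h1 : S_rc) (h2 : S_CountD) (h3 : S_Count) (h4 : S_A4r) (h5 : S_Con) (h6 : S_DU)
    (h7 : S_DL) (θ : ℝ) (hθ0 : 0 ≤ θ) (hθ : IsTheta θ) (ε : ℝ) (hε : 0 < ε) :
    ∀ᶠ n : ℕ in atTop, (n : ℝ) ^ (-θ - 2 * ε) ≤ rcomp n ∧ rcomp n ≤ (n : ℝ) ^ (-θ + 2 * ε) := by
  obtain ⟨c1, hc1, c2, hc12, hc2, κ, hκ, nA, hnA⟩ := h4
  obtain ⟨C, hC, nC, hnC⟩ := h5 (θ + 1) (by linarith)
  obtain ⟨nU, hnU⟩ := h6 θ c1 c2 (2 * C) ε hθ0 hθ hc1 hc12 hc2 (by positivity) hε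
  obtain ⟨nL, hnL⟩ := h7 θ c1 c2 ε hθ0 hθ hc1 hc12 hc2 hε
  filter_upwards [ev_exp κ θ hκ, ev_const 10 ε hε, ev_log (64 * C ^ 2) 16 ε (by positivity) hε,
    eventually_ge_atTop nA, eventually_ge_atTop nC, eventually_ge_atTop nU, eventually_ge_atTop nL,
    eventually_ge_atTop 4] with n e1 e2 e3 gA gC gU gL g4
  obtain ⟨d0, hd0⟩ := hnC n gC
  have hA := hnA n gA
  have hn4 : (4 : ℝ) ≤ n := by exact_mod_cast g4
  have hn1 : (1 : ℝ) ≤ n := by linarith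
  have hn0 : (0 : ℝ) < n := by linarith
  have hlog : 0 ≤ Real.log n := Real.log_nonneg hn1
  set c : ℕ → ℝ := fun d => (cnt d n : ℝ) with hcdef
  set D : ℕ → ℕ → ℝ := fun d d' => (cntD d d' n : ℝ) with hDdef
  have hc : ∀ d, 0 ≤ c d := fun d => Nat.cast_nonneg _
  have hDnn : ∀ d d', 0 ≤ D d d' := fun d d' => Nat.cast_nonneg _
  have hDle : ∀ d d', D d d' ≤ c d * c d' := by
    intro d d'
    have := cntD_le d d' n
    show (cntD d d' n : ℝ) ≤ (cnt d n : ℝ) * (cnt d' n : ℝ)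
    exact_mod_cast this
  set P : ℝ := ∑ d ∈ Finset.range (n + 1), c d with hP
  set N : ℝ := ∑ d ∈ Finset.range (n + 1), ∑ d' ∈ Finset.range (n + 1), D d d' with hN
  have hPc : (Nat.card (Nat.Partition n) : ℝ) = P := by
    rw [h3.1 n, Nat.cast_sum]
  have hNc : (Nat.card {pq : Nat.Partition n × Nat.Partition n // DomM pq.1.parts pq.2.parts} : ℝ) = N := by
    rw [h2 n, Nat.cast_sum]
    exact Finset.sum_congr rfl (fun d _ => Nat.cast_sum _ _)
  have hPpos : 0 < P := by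
    rw [← hPc]
    exact_mod_cast Nat.card_pos
  obtain ⟨r1, r2⟩ := h1 n
  rw [hPc, hNc] at r1 r2
  set R : ℝ := C * Real.sqrt (Real.sqrt n * Real.log n) with hR
  set T : Finset ℕ := (Finset.range (n + 1)).filter (fun d : ℕ =>
    (c1 * Real.sqrt n ≤ d ∧ (d : ℝ) ≤ c2 * Real.sqrt n) ∧ ¬ (R < |(d : ℝ) - d0|)) with hT
  have hTs : T ⊆ Finset.range (n + 1) := Finset.filter_subset _ _
  have hTm : ∀ d ∈ T, c1 * Real.sqrt n ≤ d ∧ (d : ℝ) ≤ c2 * Real.sqrt n ∧ |(d : ℝ) - d0| ≤ R := by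
    intro d hd
    have h := (Finset.mem_filter.1 hd).2
    exact ⟨h.1.1, h.1.2, not_lt.1 h.2⟩
  set w : ℝ := (n : ℝ) ^ (-(θ + 1)) with hw
  have hcomp : ∑ d ∈ Finset.range (n + 1) \ T, c d ≤ (Real.exp (-(κ * Real.sqrt n)) + w) * P :=
    typ_mass c hc (n + 1) (fun d : ℕ => c1 * Real.sqrt n ≤ d ∧ (d : ℝ) ≤ c2 * Real.sqrt n)
      (fun d : ℕ => R < |(d : ℝ) - d0|) _ _ P hA hd0
  have hw0 : 0 ≤ w := Real.rpow_nonneg hn0.le _
  have hw1 : w ≤ 1 / 4 := by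
    have h : w ≤ (n : ℝ) ^ (-1 : ℝ) := Real.rpow_le_rpow_of_exponent_le hn1 (by linarith)
    rw [Real.rpow_neg_one] at h
    have h' : (n : ℝ)⁻¹ ≤ (4 : ℝ)⁻¹ := inv_anti₀ (by norm_num) hn4
    linarith
  have hcomp2 : ∑ d ∈ Finset.range (n + 1) \ T, c d ≤ (2 * w) * P := by
    refine le_trans hcomp (mul_le_mul_of_nonneg_right (by linarith) hPpos.le)
  refine ⟨?_, ?_⟩
  · -- lower bound
    refine le_trans ?_ r1
    have hmT : P / 2 ≤ ∑ d ∈ T, c d := by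
      have h := Finset.sum_sdiff hTs (f := c)
      have h' : (2 * w) * P ≤ (1 / 2) * P := mul_le_mul_of_nonneg_right (by linarith) hPpos.le
      linarith
    set s : ℝ := Real.sqrt (Real.log n) with hs
    have hs2 : s ^ 2 = Real.log n := Real.sq_sqrt hlog
    have hs0 : 0 ≤ s := Real.sqrt_nonneg _
    set l : ℝ := (n : ℝ) ^ (1 / 4 : ℝ) with hl
    have hl0 : 0 < l := Real.rpow_pos_of_pos hn0 _
    have hRl : R = C * (l * s) := by
      rw [hR, Real.sqrt_mul (Real.sqrt_nonneg _)]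
      congr 2
      rw [Real.sqrt_eq_rpow, Real.sqrt_eq_rpow, ← Real.rpow_mul hn0.le, hl]
      norm_num
    set K : ℕ := ⌊2 * C * s⌋₊ + 1 with hK
    set f : ℕ → ℕ := fun d => ⌊((d : ℝ) - d0 + R) / l⌋₊ with hf
    have hfm : ∀ d ∈ T, f d ∈ Finset.range K := by
      intro d hd
      rw [Finset.mem_range, hK]
      refine Nat.lt_succ_of_le (Nat.floor_le_floor ?_)
      rw [div_le_iff₀ hl0]
      have := (abs_le.1 (hTm d hd).2.2).2
      rw [hRl] at this ⊢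
      nlinarith
    have hK0 : 0 < K := Nat.succ_pos _
    have hK0' : (0 : ℝ) < K := by exact_mod_cast hK0
    have hpig := Finset.exists_le_sum_fiber_of_maps_to_of_nsmul_le_sum (s := T) (t := Finset.range K)
      (f := f) (w := c) (b := P / (2 * K)) hfm ⟨0, Finset.mem_range.2 hK0⟩ (by
        rw [Finset.card_range, nsmul_eq_mul]
        have : (K : ℝ) * (P / (2 * K)) = P / 2 := by
          field_simp
        rw [this]; exact hmT)
    obtain ⟨k, _, hk⟩ := hpig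
    have hQ : ∀ d ∈ T.filter (fun d => f d = k), ∀ d' ∈ T.filter (fun d => f d = k), d ≤ d' →
        (n : ℝ) ^ (-θ - ε) * c d * c d' ≤ D d d' := by
      intro d hd d' hd' hdd
      rw [Finset.mem_filter] at hd hd'
      obtain ⟨t1, t2, t3⟩ := hTm d hd.1
      obtain ⟨t1', t2', t3'⟩ := hTm d' hd'.1
      refine hnL n gL d d' t1 t2' hdd ?_
      have u0 : 0 ≤ ((d : ℝ) - d0 + R) / l := div_nonneg (by linarith [(abs_le.1 t3).1]) hl0.le
      have u1 : ((d' : ℝ) - d0 + R) / l < (f d' : ℝ) + 1 := Nat.lt_floor_add_one _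
      have u2 : (f d : ℝ) ≤ ((d : ℝ) - d0 + R) / l := Nat.floor_le u0
      rw [hd'.2] at u1
      rw [hd.2] at u2
      have u3 : ((d' : ℝ) - d0 + R) / l < ((d : ℝ) - d0 + R) / l + 1 := by linarith
      have u4 : ((d' : ℝ) - d0 + R) < ((d : ℝ) - d0 + R) + l := by
        have := mul_lt_mul_of_pos_right u3 hl0
        rw [add_mul, div_mul_cancel₀ _ hl0.ne', div_mul_cancel₀ _ hl0.ne', one_mul] at this
        exact this
      linarith
    have hmain := lower_abs (n + 1) c D (T.filter (fun d => f d = k)) ((n : ℝ) ^ (-θ - ε)) (P / (2 * K))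
      hc hDnn ((Finset.filter_subset _ _).trans hTs) (Real.rpow_nonneg hn0.le _) hQ (by positivity) hk
    have hKb : 8 * (K : ℝ) ^ 2 ≤ (n : ℝ) ^ ε := by
      have hKle : (K : ℝ) ≤ 2 * C * s + 1 := by
        rw [hK, Nat.cast_add, Nat.cast_one]
        linarith [Nat.floor_le (show 0 ≤ 2 * C * s by positivity)]
      have hK2 : (K : ℝ) ^ 2 ≤ (2 * C * s + 1) ^ 2 := pow_le_pow_left₀ hK0'.le hKle 2
      have : (2 * C * s + 1) ^ 2 ≤ 8 * C ^ 2 * s ^ 2 + 2 := by nlinarith [sq_nonneg (2 * C * s - 1)]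
      rw [hs2] at this
      linarith
    rw [le_div_iff₀ (by positivity)]
    refine le_trans ?_ hmain
    have hy : (n : ℝ) ^ (-θ - 2 * ε) * (n : ℝ) ^ ε = (n : ℝ) ^ (-θ - ε) := by
      rw [← Real.rpow_add hn0]; congr 1; ring
    have hz : 0 ≤ (n : ℝ) ^ (-θ - 2 * ε) := Real.rpow_nonneg hn0.le _
    have hv : (n : ℝ) ^ (-θ - 2 * ε) * (8 * (K : ℝ) ^ 2) ≤ (n : ℝ) ^ (-θ - ε) := by
      rw [← hy]; exact mul_le_mul_of_nonneg_left hKb hz
    have e5 : (n : ℝ) ^ (-θ - ε) / 2 * (P / (2 * K)) ^ 2 = (n : ℝ) ^ (-θ - ε) * P ^ 2 / (8 * (K : ℝ) ^ 2) := by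
      field_simp
      ring
    rw [e5, le_div_iff₀ (by positivity)]
    nlinarith [mul_le_mul_of_nonneg_right hv (sq_nonneg P)]
  · -- upper bound
    refine le_trans r2 ?_
    have hUp := upper_abs (n + 1) c D T ((n : ℝ) ^ (-θ + ε)) (2 * w) hc hDle hTs
      (Real.rpow_nonneg hn0.le _) (by
        intro d hd d' hd'
        obtain ⟨t1, t2, t3⟩ := hTm d hd
        obtain ⟨t1', t2', t3'⟩ := hTm d' hd'
        refine hnU n gU d d' t1 t2 t1' t2' ?_
        have h := abs_sub_le (d : ℝ) d0 d'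
        rw [abs_sub_comm (d0 : ℝ) d'] at h
        have h' : 2 * C * Real.sqrt (Real.sqrt n * Real.log n) = R + R := by rw [hR]; ring
        rw [h']
        linarith) hcomp2
    have hwx : w ≤ (n : ℝ) ^ (-θ + ε) := Real.rpow_le_rpow_of_exponent_le hn1 (by linarith)
    have hP2 : 0 < P ^ 2 := by positivity
    have hNP : N / P ^ 2 ≤ 5 * (n : ℝ) ^ (-θ + ε) := by
      rw [div_le_iff₀ hP2]
      refine le_trans hUp (mul_le_mul_of_nonneg_right (by linarith) hP2.le)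
    have hy : (n : ℝ) ^ (-θ + 2 * ε) = (n : ℝ) ^ ε * (n : ℝ) ^ (-θ + ε) := by
      rw [← Real.rpow_add hn0]; congr 1; ring
    rw [hy]
    have hx0 : 0 ≤ (n : ℝ) ^ (-θ + ε) := Real.rpow_nonneg hn0.le _
    nlinarith [mul_le_mul_of_nonneg_right e2 hx0]

/-- **Final assembly** of the comparability exponent. -/
theorem gp_dfin (h1 : S_rc) (h2 : S_CountD) (h3 : S_Count) (h4 : S_A4r) (h5 : S_Con) (h6 : S_DU)
    (h7 : S_DL) (h8 : S_theta) : Pool.Agent.H174.GP.S_DFin := by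
  obtain ⟨θ, hθ0, hθ⟩ := h8
  refine ⟨θ, hθ0, hθ, ?_⟩
  rw [Metric.tendsto_atTop']
  intro ε hε
  have hk := gp_key h1 h2 h3 h4 h5 h6 h7 θ hθ0 hθ (ε / 4) (by positivity)
  obtain ⟨n1, hn1⟩ := eventually_atTop.1 (hk.and (eventually_ge_atTop 3))
  refine ⟨n1, fun n hn => ?_⟩
  obtain ⟨⟨ha, hb⟩, h3n⟩ := hn1 n hn.le
  have hn3 : (3 : ℝ) ≤ n := by exact_mod_cast h3n
  have hn0 : (0 : ℝ) < n := by linarith
  have hL : 0 < Real.log n := Real.log_pos (by linarith)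
  have hra : 0 < (n : ℝ) ^ (-θ - 2 * (ε / 4)) := Real.rpow_pos_of_pos hn0 _
  have hr : 0 < rcomp n := lt_of_lt_of_le hra ha
  have la := Real.log_le_log hra ha
  have lb := Real.log_le_log hr hb
  rw [Real.log_rpow hn0] at la lb
  rw [Real.dist_eq]
  have q1 : -Real.log (rcomp n) / Real.log n ≤ θ + ε / 2 := by
    rw [div_le_iff₀ hL]; nlinarith
  have q2 : θ - ε / 2 ≤ -Real.log (rcomp n) / Real.log n := by
    rw [le_div_iff₀ hL]; nlinarith
  rw [abs_lt]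
  constructor <;> linarith

end Pool.Agent.H279.GP174
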