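import Pool.Agent.H174.GP.StI

open MeasureTheory ProbabilityTheory Finset

namespace Pool.Agent.H279.GP174

open Pool.Agent.H174.GP

/-- **Independence of disjoint blocks under `GA`**, from the Laplace sequence. -/
theorem gp_gindep (h1 : S_Gmap) (h2 : S_GPP) (h3 : S_indep) : Pool.Agent.H174.GP.S_gindep := by
  obtain ⟨g, _, _, hgm, hgl⟩ := h1
  have hΦ : Measurable (fun (ω : ℕ → ℝ) (j : ℕ) => g (ω j)) :=
    measurable_pi_lambda _ (fun j => hgm.comp (measurable_pi_apply j))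
  have key : ∀ A : Set (ℕ → ℝ), MeasurableSet A →
      GA.real A = PP.real ((fun (ω : ℕ → ℝ) (j : ℕ) => g (ω j)) ⁻¹' A) := by
    intro A hA
    rw [← h2 g hgm hgl]
    exact map_measureReal_apply hΦ hA
  have hdep : ∀ (I : Finset ℕ) (A : Set (ℕ → ℝ)), DepOn I A →
      DepOn I ((fun (ω : ℕ → ℝ) (j : ℕ) => g (ω j)) ⁻¹' A) := by
    intro I A hA ω ω' hω hmem
    exact hA (fun j => g (ω j)) (fun j => g (ω' j)) (fun j hj => congrArg g (hω j hj)) hmem
  intro I J F G hIJ hF hG hFI hGJ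
  rw [key _ (hF.inter hG), key F hF, key G hG, Set.preimage_inter]
  exact h3 I J _ _ hIJ (hΦ hF) (hΦ hG) (hdep I F hFI) (hdep J G hGJ)

end Pool.Agent.H279.GP174
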